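import Pool.Agent.V11202.SQ.Exh

/-!
# Box and packing dimension of sets containing rotated square boundaries

No compact set that contains, for every `x` in `[0,1] × [0,1]`, the boundary of some (possibly
rotated) square centred at `x` has lower box dimension or packing dimension less than `7/4`.
-/

set_option autoImplicit false

open Pool.Agent.V11202.SQ

namespace Pool.Agent.Results.MP_023cc8_an.RotatedSquares

/-- Every admissible compact set has lower box dimension at least `7/4` and packing dimension at
least `7/4`. -/
theorem result : ∀ K : Set ℂ, Admissible K →
    ((7 / 4 : ℝ) : EReal) ≤ lowerBoxDim K ∧ ((7 / 4 : ℝ) : EReal) ≤ packingDim K :=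
  fun _ hK => main hK

end Pool.Agent.Results.MP_023cc8_an.RotatedSquares
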